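import Pool.Agent.X301.Wco5

/-!
# MP_9100ee_an, Q1: the weight of a normal weighted composition operator with linear fractional
composition symbol is linear fractional

`H2` is the Hardy space of the disc, given by the square summable sequences of Taylor coefficients,
and `value f z = ∑ f_n z^n`.  A bounded operator `W` on `H2` is the weighted composition operator
`W_{ψ,φ}` if `(W f)(z) = ψ(z) f(φ(z))` for all `f` in `H2` and all `z` in the disc.

Proof idea: `φ(𝔻)` is a disc with centre `κ` and radius `ρ`, so `(φ - κ)/ρ` is an automorphism of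
the disc and multiplication by it is isometric on `H2`.  With `F_w = W k_w` this gives a functional
equation for `⟨F_w, F_v⟩`, which by normality equals `ψ(w) conj ψ(v) / (1 - φ(w) conj φ(v))`.  The
resulting identity of rational kernels forces `ψ(z) = ψ(0) d / (c z + d)`.
-/

open scoped ComplexConjugate ENNReal

namespace Pool.Agent.Results.MP_9100ee_an.WeightIsLinearFractional

/-- The Hardy space `H^2` of the disc: square summable sequences of Taylor coefficients, with the
norm `‖f‖^2 = ∑ |f_n|^2`. -/
abbrev H2 : Type := lp (fun _ : ℕ => ℂ) 2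

/-- The value at `z` of the function with the Taylor coefficients `f`. -/
noncomputable def value (f : H2) (z : ℂ) : ℂ := ∑' n : ℕ, f n * z ^ n

/-- The bounded linear operators on `H^2`. -/
abbrev BoundedOp : Type := H2 →L[ℂ] H2

/-- The value of a bounded operator at an element of `H^2`. -/
noncomputable def app (W : BoundedOp) (f : H2) : H2 := W f

/-- The inner product of `H^2` (conjugate linear in the first variable). -/
noncomputable def ip (f g : H2) : ℂ := ∑' n : ℕ, conj (f n) * g n

/-- `V` is the Hilbert space adjoint of `W`. -/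
def IsAdjoint (W V : BoundedOp) : Prop := ∀ f g : H2, ip (app V f) g = ip f (app W g)

/-- `W` is normal: `W W^* = W^* W`. -/
def IsNormalOp (W : BoundedOp) : Prop :=
  ∃ V : BoundedOp, IsAdjoint W V ∧ ∀ f : H2, app W (app V f) = app V (app W f)

/-- `W` is the weighted composition operator `f ↦ ψ · (f ∘ φ)` on `H^2`. -/
def IsWeightedComposition (ψ φ : ℂ → ℂ) (W : BoundedOp) : Prop :=
  ∀ f : H2, ∀ z : ℂ, ‖z‖ < 1 → value (app W f) z = ψ z * value f (φ z)

/-- `φ(z) = (a z + b)/(c z + d)` is a linear fractional self-map of the unit disc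
(`a d - b c ≠ 0`, no pole in the disc, and the disc is mapped into itself). -/
def IsLinearFractionalSelfMap (a b c d : ℂ) : Prop :=
  a * d - b * c ≠ 0 ∧ ∀ z : ℂ, ‖z‖ < 1 → c * z + d ≠ 0 ∧ ‖(a * z + b) / (c * z + d)‖ < 1

/-- `ψ` is linear fractional on the disc (constants included). -/
def IsLinearFractionalWeight (ψ : ℂ → ℂ) : Prop :=
  ∃ a b c d : ℂ, ∀ z : ℂ, ‖z‖ < 1 → c * z + d ≠ 0 ∧ ψ z = (a * z + b) / (c * z + d)

/-- **Q1, positive answer.** If `φ(z) = (a z + b)/(c z + d)` is a linear fractional self-map of the
disc and the bounded operator `W` on `H^2` is the weighted composition operator `W_{ψ,φ}` and is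
normal, then `ψ` is linear fractional; more precisely `ψ(z) = ψ(0) d / (c z + d)` on the disc. -/
theorem result (a b c d : ℂ) (hφ : IsLinearFractionalSelfMap a b c d) (ψ : ℂ → ℂ)
    (W : BoundedOp) (hW : IsWeightedComposition ψ (fun z => (a * z + b) / (c * z + d)) W)
    (hN : IsNormalOp W) :
    IsLinearFractionalWeight ψ ∧ ∀ z : ℂ, ‖z‖ < 1 → ψ z = ψ 0 * d / (c * z + d) := by
  obtain ⟨V, hV, hVW⟩ := hN
  have hip : ∀ f g : H2, ip f g = inner ℂ f g := by
    intro f g
    rw [lp.inner_eq_tsum]
    unfold ip
    apply tsum_congr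
    intro n
    simp [mul_comm]
  have hadj : V = ContinuousLinearMap.adjoint W := by
    rw [ContinuousLinearMap.eq_adjoint_iff]
    intro f g
    have h := hV f g
    rw [hip, hip] at h
    exact h
  have hN' : W ∘L ContinuousLinearMap.adjoint W = ContinuousLinearMap.adjoint W ∘L W := by
    rw [← hadj]
    exact ContinuousLinearMap.ext hVW
  have h := Pool.Agent.X301.Wco.main hφ.1 hφ.2 (ψ := ψ) (W := W) hW hN'
  refine ⟨⟨0, ψ 0 * d, c, d, fun z hz => ⟨(hφ.2 z hz).1, ?_⟩⟩, h⟩
  rw [h z hz, zero_mul, zero_add]

end Pool.Agent.Results.MP_9100ee_an.WeightIsLinearFractional
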